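import Pool.Agent.Lib.MP_79dc3a_pr.Final

/-!
# Integer-valued harmonic functions on percolation clusters are constant

Bernoulli bond percolation on `ℤ^d`, `d ≥ 2`, with parameter `0 < p < 1`: almost surely, for every
open cluster `C` (in particular for the infinite cluster), every integer-valued harmonic function
on `C` is constant. No growth condition is needed.
-/

namespace Pool.Agent.Results.MP_79dc3a_pr.IntegerHarmonic

open MeasureTheory ProbabilityTheory

/-- The graph of open edges of a configuration `w` on the edges of `ℤ^d`: the pair `(x, j)` stands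
for the nearest-neighbour edge joining `x` and `x + e_j`, and it is open if `w (x, j) = true`. -/
def openGraph {d : ℕ} (w : (Fin d → ℤ) × Fin d → Bool) : SimpleGraph (Fin d → ℤ) where
  Adj x y := ∃ j, (y = x + Pi.single j 1 ∧ w (x, j) = true) ∨
    (x = y + Pi.single j 1 ∧ w (y, j) = true)
  symm := ⟨fun _ _ h => by
    obtain ⟨j, h⟩ := h
    exact ⟨j, h.symm⟩⟩
  loopless := ⟨fun x h => by
    obtain ⟨j, h | h⟩ := h <;>
    · have := congrFun h.1 j
      simp at this⟩

/-- An integer-valued function `u` on the vertices of the connected component `C` of the graph `G`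
is harmonic if the sum of `u y - u x` over the neighbours `y` of `x` vanishes for all `x ∈ C`. -/
def IsHarmonic {W : Type*} {G : SimpleGraph W} (C : G.ConnectedComponent)
    (u : C.supp → ℤ) : Prop :=
  ∀ x : C.supp, ∑ᶠ y : {y : C.supp // G.Adj (x : W) (y : W)}, (u y.1 - u x) = 0

open Pool.Agent.Lib.MP_79dc3a_pr in
theorem adj_iff {d : ℕ} (w : (Fin d → ℤ) × Fin d → Bool) (x y : Fin d → ℤ) :
    (openGraph w).Adj x y ↔ s(x, y) ∈ opn w := by
  constructor
  · rintro ⟨j, ⟨rfl, h⟩ | ⟨rfl, h⟩⟩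
    · exact ⟨(x, j), h, rfl⟩
    · exact ⟨(y, j), h, Sym2.eq_swap⟩
  · rintro ⟨f, hf, he⟩
    rw [Sym2.eq_iff] at he
    rcases he with ⟨h, h'⟩ | ⟨h, h'⟩
    · refine ⟨f.2, Or.inl ⟨?_, ?_⟩⟩
      · rw [h, h']; rfl
      · rw [h]; exact hf
    · refine ⟨f.2, Or.inr ⟨?_, ?_⟩⟩
      · rw [h, h']; rfl
      · rw [h']; exact hf

open Pool.Agent.Lib.MP_79dc3a_pr in
theorem stp_cases {d : ℕ} {w : (Fin d → ℤ) × Fin d → Bool} {x y : Fin d → ℤ}
    (h : (openGraph w).Adj x y) : ∃ i, y = x + stp i := by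
  obtain ⟨j, ⟨h, _⟩ | ⟨h, _⟩⟩ := h
  · exact ⟨(j, true), by rw [h]; rfl⟩
  · refine ⟨(j, false), ?_⟩
    rw [h]
    simp [stp, bv]

open Pool.Agent.Lib.MP_79dc3a_pr in
theorem stp_inj {d : ℕ} {i i' : Fin d × Bool} (h : (stp i : V d) = stp i') : i = i' := by
  obtain ⟨j, b⟩ := i
  obtain ⟨j', b'⟩ := i'
  have h1 := congrFun h j
  have h2 := congrFun h j'
  by_cases hj : j = j'
  · subst hj
    cases b <;> cases b' <;> simp [stp, bv] at h1 ⊢
  · exfalso
    cases b <;> cases b' <;> simp [stp, bv, hj, Pi.single_eq_of_ne] at h1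

open Pool.Agent.Lib.MP_79dc3a_pr in
/-- a function harmonic on a cluster, extended by zero, is harmonic everywhere -/
theorem extend_harmonic {d : ℕ} (w : (Fin d → ℤ) × Fin d → Bool)
    (C : (openGraph w).ConnectedComponent) (u : C.supp → ℤ) (hu : IsHarmonic C u)
    (v : (Fin d → ℤ) → ℤ) (hv : ∀ x : C.supp, v x = u x) (hv0 : ∀ x, x ∉ C.supp → v x = 0)
    (x : Fin d → ℤ) : lapS (opn w) v x = 0 := by
  classical
  have hadj : ∀ i, s(x, x + stp i) ∈ opn w ↔ (openGraph w).Adj x (x + stp i) :=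
    fun i => (adj_iff w x (x + stp i)).symm
  have hmem : ∀ {x y : Fin d → ℤ}, (openGraph w).Adj x y → (x ∈ C.supp ↔ y ∈ C.supp) := by
    intro x y h
    rw [SimpleGraph.ConnectedComponent.mem_supp_iff, SimpleGraph.ConnectedComponent.mem_supp_iff,
      SimpleGraph.ConnectedComponent.sound h.reachable]
  by_cases hx : x ∈ C.supp
  · have h1 := hu ⟨x, hx⟩
    let T := {i : Fin d × Bool // (openGraph w).Adj x (x + stp i)}
    let F : T → {y : C.supp // (openGraph w).Adj ((⟨x, hx⟩ : C.supp) : Fin d → ℤ) (y : Fin d → ℤ)} :=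
      fun i => ⟨⟨x + stp i.1, (hmem i.2).1 hx⟩, i.2⟩
    have hF : Function.Bijective F := by
      constructor
      · intro i i' h
        have h2 : x + stp i.1 = x + stp i'.1 :=
          congrArg (fun z => ((z.1 : C.supp) : Fin d → ℤ)) h
        exact Subtype.ext (stp_inj (add_left_cancel h2))
      · rintro ⟨⟨y, hy⟩, hxy⟩
        obtain ⟨i, hi⟩ := stp_cases hxy
        subst hi
        exact ⟨⟨i, hxy⟩, rfl⟩
    have h2 : ∑ᶠ i : T, (v (x + stp i.1) - v x) = 0 := by
      rw [← h1]
      refine finsum_eq_of_bijective F hF ?_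
      intro i
      have a1 := hv ⟨x + stp i.1, (hmem i.2).1 hx⟩
      have a2 := hv ⟨x, hx⟩
      simp only at a1 a2
      rw [a1, a2]
    rw [finsum_eq_sum_of_fintype] at h2
    unfold lapS
    rw [← Finset.sum_filter]
    rw [← h2]
    have h3 : ∀ i : Fin d × Bool, i ∈ Finset.univ.filter (fun i => s(x, x + stp i) ∈ opn w) ↔
        (openGraph w).Adj x (x + stp i) := by
      intro i
      rw [Finset.mem_filter]
      exact ⟨fun h => (hadj i).1 h.2, fun h => ⟨Finset.mem_univ _, (hadj i).2 h⟩⟩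
    rw [Finset.sum_subtype _ h3 (fun i => v (x + stp i) - v x)]
  · unfold lapS
    refine Finset.sum_eq_zero (fun i _ => ?_)
    split_ifs with h
    · have h' := (hadj i).1 h
      rw [hv0 x hx, hv0 (x + stp i) (fun h'' => hx ((hmem h').2 h'')), sub_zero]
    · rfl

/-- **Theorem.** Let `d ≥ 2`, `0 < p < 1` and let the edges of `ℤ^d` be open independently with
probability `p`. Almost surely, for every open cluster `C`, every integer-valued harmonic function
on `C` is constant. -/
theorem result (d : ℕ) (hd : 2 ≤ d) (p : ℝ) (hp0 : 0 < p) (hp1 : p < 1)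
    {Ω : Type*} [MeasurableSpace Ω] (P : Measure Ω) [IsProbabilityMeasure P]
    (X : (Fin d → ℤ) × Fin d → Ω → Bool) (hX : ∀ e, Measurable (X e)) (hind : iIndepFun X P)
    (hlaw : ∀ e, P {ω | X e ω = true} = ENNReal.ofReal p) :
    ∀ᵐ ω ∂P, ∀ C : (openGraph (fun e => X e ω)).ConnectedComponent, ∀ u : C.supp → ℤ,
      IsHarmonic C u → ∀ x y : C.supp, u x = u y := by
  obtain ⟨d, rfl⟩ := Nat.exists_eq_add_of_le' hd
  have hlaw' : ∀ e, P.map (X e) = Pool.Agent.Lib.MP_79dc3a_pr.bern p := by
    intro e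
    have hpr : IsProbabilityMeasure (P.map (X e)) := Measure.isProbabilityMeasure_map (hX e).aemeasurable
    have htrue : P.map (X e) {true} = ENNReal.ofReal p := by
      rw [Measure.map_apply (hX e) (measurableSet_singleton _)]
      exact hlaw e
    have hfalse : P.map (X e) {false} = ENNReal.ofReal (1 - p) := by
      have h1 : ({false} : Set Bool) = {true}ᶜ := by ext b; cases b <;> simp
      rw [h1, prob_compl_eq_one_sub (measurableSet_singleton _), htrue,
        ENNReal.ofReal_sub _ hp0.le, ENNReal.ofReal_one]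
    refine Measure.ext_of_singleton (fun b => ?_)
    unfold Pool.Agent.Lib.MP_79dc3a_pr.bern
    cases b
    · rw [hfalse]; simp
    · rw [htrue]; simp
  have hmap : P.map (fun ω e => X e ω) = Pool.Agent.Lib.MP_79dc3a_pr.mu (d + 2) p := by
    rw [(iIndepFun_iff_map_fun_eq_infinitePi_map hX).1 hind]
    unfold Pool.Agent.Lib.MP_79dc3a_pr.mu
    congr 1
    funext e
    exact hlaw' e
  have hmeas : Measurable (fun ω e => X e ω) := measurable_pi_iff.2 hX
  have hae := Pool.Agent.Lib.MP_79dc3a_pr.ae_const d hp0 hp1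
  rw [← hmap] at hae
  filter_upwards [ae_of_ae_map hmeas.aemeasurable hae] with ω hω C u hu x y
  classical
  let v : (Fin (d + 2) → ℤ) → ℤ := fun z => if h : z ∈ C.supp then u ⟨z, h⟩ else 0
  have hv : ∀ x : C.supp, v x = u x := fun x => dif_pos x.2
  have hv0 : ∀ x, x ∉ C.supp → v x = 0 := fun x hx => dif_neg hx
  have hgrad := hω v (extend_harmonic _ C u hu v hv hv0)
  have hadj : ∀ a b, (openGraph (fun e => X e ω)).Adj a b → v a = v b := by
    rintro a b ⟨j, ⟨rfl, h⟩ | ⟨rfl, h⟩⟩
    · exact (hgrad (a, j) h).symm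
    · exact hgrad (b, j) h
  have hreach : (openGraph (fun e => X e ω)).Reachable (x : Fin (d + 2) → ℤ) y := by
    have h1 := x.2
    have h2 := y.2
    rw [SimpleGraph.ConnectedComponent.mem_supp_iff] at h1 h2
    exact SimpleGraph.ConnectedComponent.exact (h1.trans h2.symm)
  obtain ⟨walk⟩ := hreach
  have hwalk : ∀ a b, (openGraph (fun e => X e ω)).Walk a b → v a = v b := by
    intro a b q
    induction q with
    | nil => rfl
    | cons h _ ih => exact (hadj _ _ h).trans ih
  rw [← hv x, ← hv y]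
  exact hwalk _ _ walk

end Pool.Agent.Results.MP_79dc3a_pr.IntegerHarmonic
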